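import Pool.Agent.H752R3.MonoTop
import Pool.Agent.H752R3.MonoCH
import Pool.Agent.Helper292.ForceCH

set_option autoImplicit false

/-!
Tsaban's property `(∗)` (monochromatic sumgraphs of large covers) versus the Menger property.
-/

namespace Pool.Agent.Results.MP_2a01b0_gt.StarVersusMenger

open Pool.Agent.H752R3 Pool.Agent.H752R3.Mono

/-- (1) With large covers read literally, `(∗)` fails for every infinite `T₁` space.  In the rest
`(∗)` is required for the large covers without finite subcovers.  (2) Under the continuum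
hypothesis there is a set of reals with `(∗)` that is not Menger.  (3) The continuum hypothesis can
be forced, with `ω₁` preserved.  (4) If `𝔲 < 𝔤` then every Tychonoff space with `(∗)` is Menger. -/
theorem result.{u} :
    (∀ (X : Type u) [TopologicalSpace X] [T1Space X] [Infinite X], ¬ StarLit X) ∧
    (Cardinal.aleph 1 = Cardinal.continuum.{0} → ∃ X : Set ℝ, Mono.Star X ∧ ¬ MengerSp X) ∧
    (∃ (P : Type) (_ : Preorder P), Nonempty P ∧ ∀ p : P,
      p ∈ Pool.Agent.Helper292.ForceCH.OmegaOnePreserved P ∧
      p ∈ Pool.Agent.Helper292.ForceCH.CHHolds P) ∧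
    (uNumber < gNumber → ∀ (X : Type u) [TopologicalSpace X] [T1Space X]
      [CompletelyRegularSpace X], Mono.Star X → MengerSp X) := by
  refine ⟨fun X _ _ _ => not_starLit X, fun hCH => exists_real hCH, ?_,
    fun h X _ _ _ => menger_of_star h⟩
  obtain ⟨P, i, h1, h2⟩ := Pool.Agent.Helper292.ForceCH.exists_forcing
  exact ⟨P, i, h1, fun p => ⟨(h2 p).1, (h2 p).2.2⟩⟩

end Pool.Agent.Results.MP_2a01b0_gt.StarVersusMenger
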